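import Pool.Agent.V11328.Pr

/-! Abstract removal processes: at each step a uniformly random removable element is removed. -/

open Finset

namespace Pool.Agent.V11328.P5

variable {E : Type*} [DecidableEq E]

/-- Run the removal process for `k` steps from `S`: at each step remove a uniformly random element
of `R S`; if `R S` is empty, nothing changes any more. -/
noncomputable def run (R : Finset E → Finset E) : ℕ → Finset E → PMF (Finset E)
  | 0, S => PMF.pure S
  | k + 1, S =>
    if h : (R S).Nonempty then (PMF.uniformOfFinset (R S) h).bind (fun e => run R k (S.erase e))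
    else PMF.pure S

variable {R : Finset E → Finset E}

lemma run_support_inv {P : Finset E → Prop} (hP : ∀ S, P S → ∀ e ∈ R S, P (S.erase e)) :
    ∀ (k : ℕ) (S : Finset E), P S → ∀ T ∈ (run R k S).support, P T := by
  intro k
  induction k with
  | zero =>
    intro S hS T hT
    simp only [run, PMF.support_pure, Set.mem_singleton_iff] at hT
    rw [hT]; exact hS
  | succ k ih =>
    intro S hS T hT
    rw [run] at hT
    split_ifs at hT with h
    · rw [PMF.mem_support_bind_iff] at hT
      obtain ⟨e, he, hT⟩ := hT
      rw [PMF.mem_support_uniformOfFinset_iff] at he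
      exact ih _ (hP S hS e he) T hT
    · simp only [PMF.support_pure, Set.mem_singleton_iff] at hT
      rw [hT]; exact hS

/-- After `|S|` steps nothing is removable. -/
lemma run_final (hR : ∀ S, R S ⊆ S) : ∀ (k : ℕ) (S : Finset E), #S ≤ k →
    ∀ T ∈ (run R k S).support, R T = ∅ := by
  intro k
  induction k with
  | zero =>
    intro S hS T hT
    simp only [run, PMF.support_pure, Set.mem_singleton_iff] at hT
    rw [hT]
    have : S = ∅ := Finset.card_eq_zero.1 (by omega)
    rw [this]
    exact Finset.subset_empty.1 (by simpa using hR ∅)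
  | succ k ih =>
    intro S hS T hT
    rw [run] at hT
    split_ifs at hT with h
    · rw [PMF.mem_support_bind_iff] at hT
      obtain ⟨e, he, hT⟩ := hT
      rw [PMF.mem_support_uniformOfFinset_iff] at he
      refine ih _ ?_ T hT
      rw [card_erase_of_mem (hR S he)]
      have : 0 < #S := card_pos.2 ⟨e, hR S he⟩
      omega
    · simp only [PMF.support_pure, Set.mem_singleton_iff] at hT
      rw [hT]
      exact Finset.not_nonempty_iff_eq_empty.1 h

lemma pr_run_succ_of {k : ℕ} {S : Finset E} (h : (R S).Nonempty) (B : Set (Finset E)) :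
    pr (run R (k + 1) S) B = (∑ e ∈ R S, pr (run R k (S.erase e)) B) / #(R S) := by
  rw [run, dif_pos h, pr_bind_uniform]

/-- The main bound: if `f` stays removable as long as something of `A` is present (and the state is
not dead), then the probability to end with `f` present, all of `A` removed and the state not dead
is at most `1 / (|A ∩ S| + 1)`. -/
theorem bad_bound {A : Finset E} {f : E} (hfA : f ∉ A) (hR : ∀ S, R S ⊆ S)
    {val dead : Finset E → Prop}
    (hval : ∀ S, val S → ∀ e ∈ R S, val (S.erase e))
    (hdead : ∀ S, dead S → ∀ e ∈ R S, dead (S.erase e))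
    (hf : ∀ S, val S → ¬ dead S → f ∈ S → (A ∩ S).Nonempty → f ∈ R S) :
    ∀ (k : ℕ) (S : Finset E), val S → f ∈ S →
      pr (run R k S) {T | f ∈ T ∧ A ∩ T = ∅ ∧ ¬ dead T} ≤ 1 / ((#(A ∩ S) : ℝ) + 1) := by
  classical
  set B : Set (Finset E) := {T | f ∈ T ∧ A ∩ T = ∅ ∧ ¬ dead T} with hB
  intro k
  induction k with
  | zero =>
    intro S hS hfS
    rw [run, pr_pure]
    by_cases hA : A ∩ S = ∅
    · have h0 : (#(A ∩ S) : ℝ) = 0 := by rw [hA]; simp
      rw [h0]
      split_ifs <;> simp
    · rw [if_neg (fun h => hA h.2.1)]
      positivity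
  | succ k ih =>
    intro S hS hfS
    by_cases hd : dead S
    · have h0 : pr (run R (k + 1) S) B = 0 := by
        apply pr_zero_of_support
        intro T hT hTB
        exact hTB.2.2 (run_support_inv hdead (k + 1) S hd T hT)
      rw [h0]; positivity
    by_cases hA : (A ∩ S).Nonempty
    swap
    · rw [Finset.not_nonempty_iff_eq_empty] at hA
      rw [hA]
      simpa using pr_le_one _ _
    have hfR := hf S hS hd hfS hA
    have hne : (R S).Nonempty := ⟨f, hfR⟩
    rw [pr_run_succ_of hne]
    set s : ℝ := (#(A ∩ S) : ℝ) with hs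
    have hspos : 0 < s := by
      rw [hs]; exact_mod_cast hA.card_pos
    -- bound for each term
    have hterm : ∀ e ∈ R S, pr (run R k (S.erase e)) B ≤
        if e = f then 0 else if e ∈ A then 1 / s else 1 / (s + 1) := by
      intro e he
      split_ifs with h1 h2
      · apply le_of_eq
        apply pr_zero_of_support
        intro T hT hTB
        have : f ∉ T := run_support_inv (P := fun T => f ∉ T)
          (fun S' hS' e' _ h => hS' (mem_of_mem_erase h)) k (S.erase e) (by simp [h1]) T hT
        exact this hTB.1
      · have h3 := ih (S.erase e) (hval S hS e he) (by simp [hfS, Ne.symm h1])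
        have h4 : #(A ∩ S.erase e) = #(A ∩ S) - 1 := by
          rw [Finset.inter_erase, card_erase_of_mem (mem_inter.2 ⟨h2, hR S he⟩)]
        rw [h4] at h3
        have h5 : ((#(A ∩ S) - 1 : ℕ) : ℝ) + 1 = s := by
          rw [Nat.cast_sub hA.card_pos, hs]
          simp
        rwa [h5] at h3
      · have h3 := ih (S.erase e) (hval S hS e he) (by simp [hfS, Ne.symm h1])
        have h4 : A ∩ S.erase e = A ∩ S := by
          rw [Finset.inter_erase, erase_eq_of_notMem]
          exact fun h => h2 (mem_inter.1 h).1
        rwa [h4] at h3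
    have hRpos : (0 : ℝ) < #(R S) := by exact_mod_cast hne.card_pos
    rw [div_le_iff₀ hRpos]
    refine (Finset.sum_le_sum hterm).trans ?_
    -- split the sum
    have hsum : ∑ e ∈ R S, (if e = f then (0 : ℝ) else if e ∈ A then 1 / s else 1 / (s + 1)) =
        ∑ e ∈ (R S).erase f, (if e ∈ A then 1 / s else 1 / (s + 1)) := by
      rw [← Finset.add_sum_erase _ _ hfR, if_pos rfl, zero_add]
      refine Finset.sum_congr rfl fun e he => ?_
      rw [if_neg (ne_of_mem_erase he)]
    rw [hsum, Finset.sum_ite, Finset.sum_const, Finset.sum_const, nsmul_eq_mul, nsmul_eq_mul]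
    set m : ℕ := #(((R S).erase f).filter (fun e => e ∈ A)) with hm
    set m' : ℕ := #(((R S).erase f).filter (fun e => ¬ e ∈ A)) with hm'
    have hmm : m + m' = #(R S) - 1 := by
      rw [hm, hm', Finset.card_filter_add_card_filter_not, card_erase_of_mem hfR]
    have hms : (m : ℝ) ≤ s := by
      rw [hs, hm]
      have : ((R S).erase f).filter (fun e => e ∈ A) ⊆ A ∩ S := by
        intro e he
        rw [mem_filter] at he
        exact mem_inter.2 ⟨he.2, hR S (mem_of_mem_erase he.1)⟩
      exact_mod_cast card_le_card this
    have hRR : (#(R S) : ℝ) = m + m' + 1 := by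
      have : #(R S) = m + m' + 1 := by
        have := hne.card_pos
        omega
      rw [this]; push_cast; ring
    rw [hRR]
    have h6 : (m : ℝ) * (1 / s) ≤ (m + 1) * (1 / (s + 1)) := by
      rw [mul_one_div, mul_one_div, div_le_div_iff₀ hspos (by linarith)]
      nlinarith
    have h7 : 1 / (s + 1) * ((m : ℝ) + m' + 1) = (m + 1) * (1 / (s + 1)) + m' * (1 / (s + 1)) := by
      ring
    rw [h7]
    linarith

end Pool.Agent.V11328.P5
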